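import Pool.Agent.Helper38.FI.FI
import Pool.Agent.Helper21.TM.MT

/-!
MP_c75db0, plan W, row FI: the fast test of the inclusions of a cell, and a piece of the window from
the tests of a cell with this test.
-/

set_option autoImplicit false
noncomputable section
namespace Pool.Agent.Helper38.FI

open Pool.Agent.Helper90.KMT (PT)
open Pool.Agent.Helper86.C75 (Z)
open Pool.Agent.Helper86.CX (Cx andB)
open Pool.Agent.Helper86.CT (N3 Alg Mo KM A3 A4)
open Pool.Agent.Helper17.N9 (Kf KfM andB_iffM)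
open Pool.Agent.Helper12.NKT (CovD Fm dfF)
open Pool.Agent.Helper51.FR (inc_hat)
open Pool.Agent.Helper91.BX (PcG)
open Pool.Agent.Helper91.TM
open Pool.Agent.Helper91.TMK (nM)
open Pool.Agent.Helper91.TMK.NBM
open Pool.Agent.Helper91.TMK.NBX (gtM gbB itGI itl_G TOK_gt)
open Pool.Agent.Helper91.TMK.SW
open Pool.Agent.Helper91.TMK.TST
open Pool.Agent.Helper6.MONO (fB V3)
open Pool.Agent.Helper6.MONO.W2 (Mt NZ)
open Pool.Agent.Helper6.MONO.W2.TY (r4T)
open Pool.Agent.Helper21.SW (T3 T4 lf3 lf4 Mu SE cK)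
open Pool.Agent.Helper21.TC

section

variable {ε : Type}

/-- the inclusions in the form `Ki` (list of the smaller forms, data) -/
def inL (C : Cel Kf) (Ki : Kf) (l : List (Nat × ε)) : List Mu → Bool :=
  List.rec (motive := fun _ => List Mu → Bool) (fun _ => true)
    (fun e _ ih ms => List.rec (motive := fun _ => Bool) false
      (fun m ms' _ => andB (inK Ki (C.fo e.1) m.l m.m) (ih ms')) ms) l

/-- the inclusions in the forms `i`, `i + 1`, ... -/
def inA (C : Cel Kf) (l : List (Fm ε)) : Nat → List (List Mu) → Bool :=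
  List.rec (motive := fun _ => Nat → List (List Mu) → Bool) (fun _ _ => true)
    (fun f _ ih i ms => List.rec (motive := fun _ => Bool) false
      (fun m ms' _ => andB (inL C (C.fo i) f.inc m) (ih (Nat.succ i) ms')) ms) l

/-- THE TEST OF THE INCLUSIONS OF A CELL -/
def incK (C : Cel Kf) (ms : List (List Mu)) : Bool := inA C C.D.fm (nat_lit 0) ms

variable {C : Cel Kf} {t : ℕ → ℝ}

theorem inL_ok (hP : PT 3 t) {v : V3} (h2 : Pool.Agent.Helper6.MONO.W2.brJ 1 v v = 2) {Ki : Kf} :
    ∀ {l : List (ℕ × ε)} {ms : List Mu}, inL C Ki l ms = true →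
      ∀ e ∈ l, NZ (cK v (KV (C.fo e.1) t)) ⊆ NZ (cK v (KV Ki t)) := by
  intro l
  induction l with
  | nil => intro ms _ e he; cases he
  | cons a l ih =>
    intro ms h e he
    cases ms with
    | nil => exact absurd h (by show ¬ (false = true); simp)
    | cons m ms =>
      obtain ⟨h1, h2'⟩ := andB_iffM.1 h
      rcases List.mem_cons.1 he with rfl | he
      · exact inc_hat h2 (inK_ok h1 hP)
      · exact ih h2' e he

theorem inA_ok (hP : PT 3 t) {v : V3} (h2 : Pool.Agent.Helper6.MONO.W2.brJ 1 v v = 2) :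
    ∀ {l : List (Fm ε)} {k : ℕ} {ms : List (List Mu)}, inA C l k ms = true →
      ∀ i, ∀ e ∈ (l.getD i dfF).inc,
      NZ (cK v (KV (C.fo e.1) t)) ⊆ NZ (cK v (KV (C.fo (k + i)) t)) := by
  intro l
  induction l with
  | nil =>
    intro k ms _ i e he
    have h0 : (([] : List (Fm ε)).getD i dfF).inc = [] := by
      cases i <;> rfl
    rw [h0] at he
    cases he
  | cons a l ih =>
    intro k ms h i e he
    cases ms with
    | nil => exact absurd h (by show ¬ (false = true); simp)
    | cons m ms =>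
      obtain ⟨h1, h2'⟩ := andB_iffM.1 h
      cases i with
      | zero => exact inL_ok hP h2 h1 e he
      | succ i =>
        have h3 := ih h2' i e he
        have e1 : k + (i + 1) = Nat.succ k + i := by
          have : Nat.succ k = k + 1 := rfl
          omega
        rw [e1]
        exact h3

end

/-- **THE INCLUSIONS OF THE FORMS** -/
theorem incK_ok {C : Cel Kf} {t : ℕ → ℝ} (hP : PT 3 t) {v : V3}
    (h2 : Pool.Agent.Helper6.MONO.W2.brJ 1 v v = 2) {ms : List (List Mu)} (h : incK C ms = true)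
    (i : ℕ) : ∀ e ∈ (C.D.fm.getD i dfF).inc,
      NZ (cK v (KV (C.fo e.1) t)) ⊆ NZ (cK v (KV (C.fo i) t)) := by
  intro e he
  have h3 := inA_ok hP h2 h i e he
  have e0 : (nat_lit 0) + i = i := Nat.zero_add i
  rw [e0] at h3
  exact h3

section

variable {γ : Type} {C : Cel Kf} {q r : ℕ} {x : ℝ} {t : ℕ → ℝ}

/-- **THE TESTS OF A CELL** -/
structure CelI (T : Pool.Agent.Helper21.SW.TK Kf γ) (C : Cel Kf) (g : GN)
    (ms : List (List Mu)) (E : SE) : Prop where
  ck : Pool.Agent.Helper12.NKT.ck C.D = true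
  ce : ceK MT C = true
  le : leA MT C = true
  gb : gbT C g = true
  it : ItsA MT (itT T C g) C C.D.it
  i1 : IvsA (itT T C g) C C.D.i1
  ic : incK C ms = true
  se : seK0 MT G3 (TT T) C E = true

/-- **A PIECE OF THE WINDOW FROM THE TESTS OF A CELL** -/
theorem CelI.pc {T : Pool.Agent.Helper21.SW.TK Kf γ} (hT : Pool.Agent.Helper21.SW.TKL KV T)
    {g : GN} {ms : List (List Mu)} {E : SE} (h : CelI T C g ms E)
    (h4 : r4T C.D.p C.B.A0 C.B.ra C.B.S0 C.B.rs = true) {Q : ℕ → ℕ → ℝ → Prop} {m : ℝ}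
    (hQ : ∀ q r x, Q q r x → C.D.gb = true → 0 ≤ fB C.D.p q r x) :
    PcG Q C.D.p m C.B.A0 C.B.A1 C.B.ra C.B.S0 C.B.S1 C.B.rs C.S C.B.W0 C.S C.B.W1 := by
  have hg : C.D.gb = true → gbB MT C (dT C g) = true := by
    intro e
    have k := h.gb
    unfold gbT at k
    rw [e] at k
    exact k
  have h7 : C.D.gb = true → 4 ≤ C.D.p := fun e => by
    have k : 7 ≤ C.D.p := Nat.le_of_ble_eq_true (Pool.Agent.Helper90.KMO.andB_t (hg e)).1
    omega
  have hI : CelK MT (itT T C g) C := ⟨h.ck, h.ce, h.le, h.it, h.i1⟩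
  have hL : CelL lfT KV MT (itT T C g) C E.U (Pool.Agent.Helper82.TST.uv E.y)
      Pool.Agent.Helper51.FR.cbd := {
    gb := h7
    it := fun hC => itl_G MT_ok (TT_ok hT) hC (dT_vl hC g).1 (dT_vl hC g).2 hg
    ic := fun hC => incK_ok hC.hP hC.two h.ic
    se := fun hC => hC.se MT_ok (TT_ok hT) (g3V_ok MT_ok) h.se
    ind := seK0_ind h.se }
  exact hI.pc MT_ok hL h4 hQ

end

end Pool.Agent.Helper38.FI
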