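import Pool.Agent.Helper38.FI.FIK
import Pool.Agent.Helper17.N9.N9F0
import Pool.Agent.Helper17.N9.N9L
import Pool.Agent.Helper17.N9.N9M
import Pool.Agent.Helper17.N9.N9N
import Pool.Agent.Helper17.N9.N9S
import Pool.Agent.Helper62.C75.NBV

/-!
MP_c75db0, plan W, row FI: the fast test of an inclusion of two forms is sound.
-/

set_option autoImplicit false
set_option exponentiation.threshold 60000
noncomputable section
namespace Pool.Agent.Helper38.FI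

open Pool.Agent.Helper17.N9
open Pool.Agent.Helper86.C75 (Z)
open Pool.Agent.Helper86.CX (andB psd1 M2)
open Pool.Agent.Helper17.PAK (PDz Bd sc)
open Pool.Agent.Helper90.C75 (Vt avg wtT)
open Pool.Agent.Helper90.KMO (zv)
open Pool.Agent.Helper90.KMT (PT)
open Pool.Agent.Helper90.K9 (pk pz pk_zero pk_succ pk_cast pz_congr pk_congr pz_add pz_sub pz_smul)
open Pool.Agent.Helper6.MONO (V3)
open Pool.Agent.Helper6.MONO.W2 (Mt hr J1 NZ)
open Finset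

/-- field minus offset -/
def fz (T k : ℕ) : ℤ := (u24 T (24 * k) : ℤ) - 2 ^ 23

theorem fz_abs (T k : ℕ) : |fz T k| ≤ 2 ^ 23 := by
  have h : u24 T (24 * k) < 16777216 := Nat.mod_lt _ (by norm_num)
  unfold fz
  rw [abs_le]
  constructor <;> [norm_num; skip] <;> omega

theorem CA9_eq : CA9 = pk (2 ^ 128) 9 (fun _ => 2 ^ 100 - 2 ^ 55) := by decide +kernel
theorem OB9_eq : OB9 = pk (2 ^ 128) 9 (fun _ => 2 ^ 23) := by decide +kernel
theorem CM_eq : CM = 2 ^ 1152 - 2 ^ 103 := by decide +kernel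

theorem hx_eq (x y : ℕ) : hx x y = x + 2 ^ 128 * y := by
  show x + y <<< 128 = _
  rw [Nat.shiftLeft_eq, Nat.mul_comm]

theorem pku_eq (T : ℕ) : pku (mkUt T) = pk (2 ^ 128) 9 (fun k => u24 T (24 * k)) := by
  have h : pku (mkUt T) = hx (u24 T (24 * 0)) (hx (u24 T (24 * 1)) (hx (u24 T (24 * 2))
    (hx (u24 T (24 * 3)) (hx (u24 T (24 * 4)) (hx (u24 T (24 * 5)) (hx (u24 T (24 * 6))
      (hx (u24 T (24 * 7)) (u24 T (24 * 8))))))))) := rfl
  rw [h]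
  simp only [hx_eq, pk_succ, pk_zero]
  simp only [Nat.mul_zero, Nat.add_zero]

theorem pku_z (T : ℕ) : ((pku (mkUt T) : ℕ) : ℤ) = pz BB 9 (fun k => (u24 T (24 * k) : ℤ)) := by
  rw [pku_eq, pk_cast]
  rfl

theorem C0_z (l : ℕ) : ((C0 l : ℕ) : ℤ) = pz BB 9 (fun _ => 2 ^ 100 - 2 ^ 55 + l * 2 ^ 23) := by
  have e : C0 l = CA9 + l * OB9 := rfl
  have e1 : ((CA9 : ℕ) : ℤ) = pz BB 9 (fun _ => 2 ^ 100 - 2 ^ 55) := by
    rw [CA9_eq, pk_cast]
    exact pz_congr _ _ _ _ fun _ _ => by norm_num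
  have e2 : ((OB9 : ℕ) : ℤ) = pz BB 9 (fun _ => 2 ^ 23) := by
    rw [OB9_eq, pk_cast]
    exact pz_congr _ _ _ _ fun _ _ => by norm_num
  rw [e, Nat.cast_add, Nat.cast_mul, e1, e2, pz_smul, pz_add]

theorem fI_z (l T : ℕ) : ((fI l (mkUt T) : ℕ) : ℤ) =
    pz BB 9 (fun k => 2 ^ 100 + 2 ^ 32 * fz T k + l * 2 ^ 23) := by
  have e : fI l (mkUt T) = 2 ^ 32 * pku (mkUt T) + C0 l := by
    show pku (mkUt T) <<< 32 + C0 l = _
    rw [Nat.shiftLeft_eq, Nat.mul_comm]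
  rw [e, Nat.cast_add, Nat.cast_mul, pku_z, C0_z, pz_smul, pz_add]
  refine pz_congr _ _ _ _ fun k _ => ?_
  unfold fz
  push_cast
  ring

theorem fE_z (l T : ℕ) : ((fE l (mkUt T) : ℕ) : ℤ) =
    pz BB 9 (fun k => l * fz T k + l * 2 ^ 23) := by
  have e : fE l (mkUt T) = l * pku (mkUt T) := rfl
  rw [e, Nat.cast_mul, pku_z, pz_smul]
  refine pz_congr _ _ _ _ fun k _ => ?_
  unfold fz
  ring

theorem F_abs {l : ℕ} (hl : l ≤ 2 ^ 60) (T S k : ℕ) : |2 ^ 32 * fz T k - l * fz S k| ≤ 2 ^ 84 := by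
  have h1 := abs_le.1 (fz_abs T k)
  have h3 : |(l : ℤ) * fz S k| ≤ 2 ^ 60 * 2 ^ 23 := by
    rw [abs_mul]
    refine mul_le_mul ?_ (fz_abs S k) (abs_nonneg _) (by norm_num)
    rw [abs_of_nonneg (by positivity)]
    exact_mod_cast hl
  have h4 := abs_le.1 h3
  rw [abs_le]
  constructor <;> linarith

theorem sub_z {l : ℕ} (hl : l ≤ 2 ^ 60) (T S : ℕ) : ((fI l (mkUt T) - fE l (mkUt S) : ℕ) : ℤ) =
    pz BB 9 (fun k => 2 ^ 100 + (2 ^ 32 * fz T k - l * fz S k)) := by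
  have e : (fI l (mkUt T) : ℤ) - (fE l (mkUt S) : ℤ) =
      pz BB 9 (fun k => 2 ^ 100 + (2 ^ 32 * fz T k - l * fz S k)) := by
    rw [fI_z, fE_z, pz_sub]
    exact pz_congr _ _ _ _ fun k _ => by ring
  have h : 0 ≤ pz BB 9 (fun k => 2 ^ 100 + (2 ^ 32 * fz T k - l * fz S k)) :=
    pz_nonneg' _ _ fun k _ => by
      have := (abs_le.1 (F_abs hl T S k)).1
      linarith
  rw [← e] at h
  have h2 : fE l (mkUt S) ≤ fI l (mkUt T) := by
    have : (fE l (mkUt S) : ℤ) ≤ (fI l (mkUt T) : ℤ) := by linarith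
    exact_mod_cast this
  rw [Nat.cast_sub h2, e]

/-! ### the value of nine integers -/

/-- coefficients of the nine entries of a hermitian form at `v` -/
def co (v : V3) : ℕ → ℝ
  | 0 => hr (hM 1 0 0 0 0 0 0 0 0) v
  | 1 => hr (hM 0 1 0 0 0 0 0 0 0) v
  | 2 => hr (hM 0 0 1 0 0 0 0 0 0) v
  | 3 => hr (hM 0 0 0 1 0 0 0 0 0) v
  | 4 => hr (hM 0 0 0 0 1 0 0 0 0) v
  | 5 => hr (hM 0 0 0 0 0 1 0 0 0) v
  | 6 => hr (hM 0 0 0 0 0 0 1 0 0) v
  | 7 => hr (hM 0 0 0 0 0 0 0 1 0) v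
  | 8 => hr (hM 0 0 0 0 0 0 0 0 1) v
  | _ => 0

theorem hM_co (a b c x x' y y' w w' : ℝ) (v : V3) : hr (hM a b c x x' y y' w w') v =
    a * co v 0 + b * co v 1 + c * co v 2 + x * co v 3 + x' * co v 4 + y * co v 5 + y' * co v 6 +
      w * co v 7 + w' * co v 8 := by
  unfold co
  simp only [hr_hM, Pool.Agent.Helper86.CX.ev]
  simp only [Complex.mul_re, Complex.add_re, Complex.mul_im, Complex.add_im, Complex.ofReal_re,
    Complex.ofReal_im, Complex.I_re, Complex.I_im, Complex.conj_re, Complex.conj_im]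
  ring

/-- the value of nine integers -/
def Ph9 (v : V3) : (ℕ → ℤ) →+ ℝ where
  toFun n := ∑ k ∈ range 9, (n k : ℝ) * co v k
  map_zero' := by simp
  map_add' x y := by
    rw [← sum_add_distrib]
    exact sum_congr rfl fun k _ => by
      rw [Pi.add_apply]
      push_cast
      ring

theorem Ph9_apply (v : V3) (n : ℕ → ℤ) : Ph9 v n = ∑ k ∈ range 9, (n k : ℝ) * co v k := rfl

theorem Ph9_hM (v : V3) (n : ℕ → ℤ) : Ph9 v n =
    hr (hM (n 0) (n 1) (n 2) (n 3) (n 4) (n 5) (n 6) (n 7) (n 8)) v := by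
  rw [Ph9_apply, hM_co]
  simp only [sum_range_succ, sum_range_zero]
  ring

theorem tab_Ph9 (T : ℕ) (v : V3) : 2 ^ 23 * hr (tabM T) v = Ph9 v (fz T) := by
  have e : ∀ k, (fz T k : ℝ) = 2 ^ 23 * frl T k := by
    intro k
    unfold fz frl
    push_cast
    ring
  rw [Ph9_hM, tabM_hM, hM_co, hM_co]
  simp only [e]
  ring

theorem J1_hM : J1 = hM 1 1 (-1) 0 0 0 0 0 0 := by
  unfold J1 hM
  ext i j
  fin_cases i <;> fin_cases j <;> (apply Complex.ext <;> simp)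

theorem J1_co (v : V3) : hr J1 v = co v 0 + co v 1 - co v 2 := by
  rw [J1_hM, hM_co]
  ring

/-! ### a control -/

theorem rep_CM : Pool.Agent.Helper17.PAK.Rep M2 CM (-2 ^ 103) := by
  unfold Pool.Agent.Helper17.PAK.Rep Int.ModEq
  decide +kernel

theorem rep_cP {m : Z} (h : aZ m ≤ 2 ^ 200) : Pool.Agent.Helper17.PAK.Rep M2 (cP m) (-2 ^ 103 + zv m) := by
  have hb : (2 : ℕ) ^ 200 ≤ CM := by decide +kernel
  cases m with
  | p n => exact rep_CM.add (Pool.Agent.Helper17.PAK.Rep.nat M2 n)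
  | m n =>
    have h1 : n ≤ CM := le_trans h hb
    have h2 := rep_CM.sub (Pool.Agent.Helper17.PAK.Rep.nat M2 n) h1
    have e : (-2 ^ 103 + zv (Z.m n) : ℤ) = -2 ^ 103 - n := by
      show (-2 ^ 103 + -(n : ℤ) : ℤ) = _
      ring
    rw [e]
    exact h2

theorem rep_cN {m : Z} (h : aZ m ≤ 2 ^ 200) : Pool.Agent.Helper17.PAK.Rep M2 (cN m) (-2 ^ 103 - zv m) := by
  have hb : (2 : ℕ) ^ 200 ≤ CM := by decide +kernel
  cases m with
  | p n =>
    have h1 : n ≤ CM := le_trans h hb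
    exact rep_CM.sub (Pool.Agent.Helper17.PAK.Rep.nat M2 n) h1
  | m n =>
    have e : (-2 ^ 103 - zv (Z.m n) : ℤ) = -2 ^ 103 + n := by
      show (-2 ^ 103 - -(n : ℤ) : ℤ) = _
      ring
    rw [e]
    exact rep_CM.add (Pool.Agent.Helper17.PAK.Rep.nat M2 n)

theorem zv_abs {m : Z} (h : aZ m ≤ 2 ^ 200) : |zv m| ≤ 2 ^ 200 := by
  cases m with
  | p n =>
    show |(n : ℤ)| ≤ _
    rw [abs_of_nonneg (by positivity)]
    exact_mod_cast h
  | m n =>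
    show |-(n : ℤ)| ≤ _
    rw [abs_neg, abs_of_nonneg (by positivity)]
    exact_mod_cast h

theorem lfW_ok {m : Z} (hm : aZ m ≤ 2 ^ 200) {X : ℕ} {g : ℕ → ℤ}
    (hX : (X : ℤ) = pz BB 9 (fun k => 2 ^ 103 + g k)) (hg : ∀ k < 9, |g k| ≤ 2 ^ 102)
    (h : lfW (cN m) (cP m) X = true) (v : V3) : 0 ≤ Ph9 v g - zv m * hr J1 v := by
  have h0 : ∀ k < 9, 0 ≤ 2 ^ 103 + g k := fun k hk => by
    have := (abs_le.1 (hg k hk)).1
    linarith
  have hb : ∀ k < 9, (2 ^ 103 + g k).toNat < 2 ^ 128 := fun k hk => by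
    have h1 := (abs_le.1 (hg k hk)).2
    have h2 : ((2 ^ 103 + g k).toNat : ℤ) = 2 ^ 103 + g k := Int.toNat_of_nonneg (h0 k hk)
    have h3 : ((2 ^ 103 + g k).toNat : ℤ) < 2 ^ 128 := by rw [h2]; linarith
    exact_mod_cast h3
  have hd : ∀ k < 9, ∀ o, o = 128 * k → ((dgt X o : ℕ) : ℤ) = 2 ^ 103 + g k := by
    intro k hk o ho
    rw [dgt_eq hb hk (toNat_pk hX h0) ho]
    exact Int.toNat_of_nonneg (h0 k hk)
  have rd : ∀ k < 9, ∀ o, o = 128 * k → Pool.Agent.Helper17.PAK.Rep M2 (dgt X o) (2 ^ 103 + g k) := by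
    intro k hk o ho
    rw [← hd k hk o ho]
    exact Pool.Agent.Helper17.PAK.Rep.nat _ _
  have rM : ∀ k < 9, ∀ o, o = 128 * k → Pool.Agent.Helper17.PAK.Rep M2 (Nat.add (dgt X o) CM) (g k) := by
    intro k hk o ho
    have h1 := (rd k hk o ho).add rep_CM
    rwa [show (2 ^ 103 + g k + -2 ^ 103 : ℤ) = g k by ring] at h1
  have rN : ∀ k < 9, ∀ o, o = 128 * k → Pool.Agent.Helper17.PAK.Rep M2 (Nat.add (dgt X o) (cN m)) (g k - zv m) := by
    intro k hk o ho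
    have h1 := (rd k hk o ho).add (rep_cN hm)
    rwa [show (2 ^ 103 + g k + (-2 ^ 103 - zv m) : ℤ) = g k - zv m by ring] at h1
  have rP : ∀ k < 9, ∀ o, o = 128 * k → Pool.Agent.Helper17.PAK.Rep M2 (Nat.add (dgt X o) (cP m)) (g k + zv m) := by
    intro k hk o ho
    have h1 := (rd k hk o ho).add (rep_cP hm)
    rwa [show (2 ^ 103 + g k + (-2 ^ 103 + zv m) : ℤ) = g k + zv m by ring] at h1
  have h1 := Pool.Agent.Helper17.PAK.psd1_sound
    (N := ⟨g 0 - zv m, g 1 - zv m, g 2 + zv m, g 3, g 4, g 5, g 6, g 7, g 8⟩)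
    (rN 0 (by norm_num) 0 rfl) (rN 1 (by norm_num) 128 rfl) (rP 2 (by norm_num) 256 rfl)
    (rM 3 (by norm_num) 384 rfl) (rM 4 (by norm_num) 512 rfl) (rM 5 (by norm_num) 640 rfl)
    (rM 6 (by norm_num) 768 rfl) (rM 7 (by norm_num) 896 rfl) (rM 8 (by norm_num) 1024 rfl) ?_ h
  · have h2 := Pool.Agent.Helper17.PAK.PDz_ev h1 v
    have e := hr_hM ((g 0 - zv m : ℤ) : ℝ) ((g 1 - zv m : ℤ) : ℝ) ((g 2 + zv m : ℤ) : ℝ)
      (g 3) (g 4) (g 5) (g 6) (g 7) (g 8) v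
    simp only [sc, div_one] at h2
    rw [← e, hM_co] at h2
    rw [Ph9_hM, hM_co, J1_co]
    push_cast at h2
    linarith
  · have hz := abs_le.1 (zv_abs hm)
    have k2 : ∀ k < 9, |g k| ≤ 2 ^ 256 := fun k hk => (hg k hk).trans (by norm_num)
    have k3 : ∀ k < 9, |g k - zv m| ≤ 2 ^ 256 := fun k hk => by
      have := abs_le.1 (hg k hk)
      rw [abs_le]
      constructor <;> linarith
    have k4 : ∀ k < 9, |g k + zv m| ≤ 2 ^ 256 := fun k hk => by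
      have := abs_le.1 (hg k hk)
      rw [abs_le]
      constructor <;> linarith
    exact ⟨k3 0 (by norm_num), k3 1 (by norm_num), k4 2 (by norm_num), k2 3 (by norm_num),
      k2 4 (by norm_num), k2 5 (by norm_num), k2 6 (by norm_num), k2 7 (by norm_num),
      k2 8 (by norm_num)⟩

/-! ### the interpolated form -/

/-- the value of a form at `v` as additive map -/
def hrA (v : V3) : Mt →+ ℝ where
  toFun K := hr K v
  map_zero' := by simp [hr, Pool.Agent.Helper6.MONO.W2.hv]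
  map_add' K L := Pool.Agent.Helper62.NBV.hr_addK K L v

theorem hr_avg {K : Mt} {w : Vt 3 → ℝ} {T : Vt 3 → ℕ}
    (h : ∀ i j, K i j = avg w (fun u => tabM (T u) i j)) (v : V3) :
    hr K v = ∑ u, w u * hr (tabM (T u)) v := by
  have e : K = ∑ u, ((w u : ℝ) : ℂ) • tabM (T u) := by
    ext i j
    rw [h i j, Matrix.sum_apply]
    rfl
  have e2 : hr K v = hrA v K := rfl
  rw [e2, e, map_sum]
  refine sum_congr rfl fun u _ => ?_
  exact Pool.Agent.Helper62.NBV.hr_smulK _ _ v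

/-- **THE TEST OF AN INCLUSION IS SOUND** -/
theorem inK_ok {Ki Ke : Kf} {l : ℕ} {m : Z} (h : inK Ki Ke l m = true) {t : ℕ → ℝ}
    (hP : PT 3 t) : ∀ u ∈ NZ (KfM Ke t), 0 ≤ hr (KfM Ki t) u := by
  rintro v ⟨hv1, hv2⟩
  obtain ⟨a1, h⟩ := andB_iffM.1 h
  obtain ⟨a2, h⟩ := andB_iffM.1 h
  have hl : l ≤ 2 ^ 60 := Nat.le_of_ble_eq_true a1
  have hm : aZ m ≤ 2 ^ 200 := Nat.le_of_ble_eq_true a2
  obtain ⟨Ti, hTi, ai⟩ := kNd_leaf (fI l) Ki
  obtain ⟨Te, hTe, ae⟩ := kNd_leaf (fE l) Ke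
  have h1 : ∀ u, (lv3 (Tl3.sb (kNd (fI l) Ki) (kNd (fE l) Ke)) u : ℤ) =
      pz BB 9 (fun k => (fun _ => 2 ^ 100 : ℕ → ℤ) k +
        (fun u k => 2 ^ 32 * fz (Ti u) k - l * fz (Te u) k : Vt 3 → ℕ → ℤ) u k) := by
    intro u
    rw [Tl3_ok.sb, hTi, hTe]
    exact sub_z hl _ _
  have h2 := Tl3_ok.cn _ 9 _ _ h1 (fun u k _ => by
    have := F_abs hl (Ti u) (Te u) k
    show 3 ^ 3 * |2 ^ 32 * fz (Ti u) k - l * fz (Te u) k| ≤ 2 ^ 100
    linarith)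
  have h3 := Tl3_ok.al _ _ h
  have h4 : ∀ u : Vt 3, 0 ≤ Ph9 v (fun k => cnI 3 (fun w => 2 ^ 32 * fz (Ti w) k -
      l * fz (Te w) k) u) - zv m * hr J1 v := by
    intro u
    refine lfW_ok hm (X := lv3 (cW Ki Ke l) u) ?_ ?_ (h3 u) v
    · rw [show cW Ki Ke l = Tl3.cn (Tl3.sb (kNd (fI l) Ki) (kNd (fE l) Ke)) from rfl, h2 u]
      exact pz_congr _ _ _ _ fun k _ => by norm_num
    · intro k _
      have := cnI_leM 3 (fun w => 2 ^ 32 * fz (Ti w) k - l * fz (Te w) k) (2 ^ 84)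
        (fun w => F_abs hl _ _ _) u
      linarith
  rw [hv2] at h4
  -- the average
  have h5 : 0 ≤ ∑ u, wtT 3 t u * cnI 3 (fun w => Ph9 v (fun k => 2 ^ 32 * fz (Ti w) k -
      l * fz (Te w) k)) u := by
    refine sum_nonneg fun u _ => mul_nonneg (hP.w.nonneg u) ?_
    have e1 := cnI_map (Ph9 v) 3 (fun w k => 2 ^ 32 * fz (Ti w) k - l * fz (Te w) k) u
    have e2 : cnI 3 (fun w k => 2 ^ 32 * fz (Ti w) k - l * fz (Te w) k) u =
        fun k => cnI 3 (fun w => 2 ^ 32 * fz (Ti w) k - l * fz (Te w) k) u := by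
      funext k
      exact cnI_map (Pi.evalAddMonoidHom (fun _ : ℕ => ℤ) k) 3
        (fun (w : Vt 3) (k : ℕ) => 2 ^ 32 * fz (Ti w) k - l * fz (Te w) k) u
    rw [← e1, e2]
    have := h4 u
    linarith
  rw [cn_avgR] at h5
  have e3 : ∀ u, Ph9 v (fun k => 2 ^ 32 * fz (Ti u) k - l * fz (Te u) k) =
      2 ^ 55 * hr (tabM (Ti u)) v - l * 2 ^ 23 * hr (tabM (Te u)) v := by
    intro u
    have k1 := tab_Ph9 (Ti u) v
    have k2 := tab_Ph9 (Te u) v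
    have k3 : Ph9 v (fun k => 2 ^ 32 * fz (Ti u) k - l * fz (Te u) k) =
        2 ^ 32 * Ph9 v (fz (Ti u)) - l * Ph9 v (fz (Te u)) := by
      rw [Ph9_apply, Ph9_apply, Ph9_apply, mul_sum, mul_sum, ← sum_sub_distrib]
      refine sum_congr rfl fun k _ => ?_
      push_cast
      ring
    rw [k3, ← k1, ← k2]
    ring
  have e4 : ∑ u, ndw 3 t u * Ph9 v (fun k => 2 ^ 32 * fz (Ti u) k - l * fz (Te u) k) =
      2 ^ 55 * hr (KfM Ki t) v - l * 2 ^ 23 * hr (KfM Ke t) v := by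
    rw [hr_avg (ai t) v, hr_avg (ae t) v, mul_sum, mul_sum, ← sum_sub_distrib]
    refine sum_congr rfl fun u _ => ?_
    rw [e3]
    ring
  rw [e4] at h5
  have h6 : 0 ≤ (l : ℝ) * 2 ^ 23 * hr (KfM Ke t) v := by positivity
  have h7 : 0 ≤ 2 ^ 55 * hr (KfM Ki t) v := by linarith
  exact nonneg_of_mul_nonneg_right h7 (by positivity)

end Pool.Agent.Helper38.FI
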