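import Pool.Agent.Helper17.N9.N9D

/-!
MP_c75db0, plan W, row FI: kernel side of the fast test of an inclusion of two forms of a cell.
`W = 2 ^ 32 K_i - l K_e - m J` (all the entries times `2 ^ 26`) is positive definite at the `27`
controls. The nine fields of a table are packed in digits of `128` bits.
-/

set_option autoImplicit false
noncomputable section
namespace Pool.Agent.Helper38.FI

open Pool.Agent.Helper17.N9 (Kf Ut mkUt kNd dgt Tl3 Tr)
open Pool.Agent.Helper86.C75 (Z)
open Pool.Agent.Helper86.CX (andB psd1)

/-- `2 ^ 100 - 2 ^ 55` in nine digits -/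
def CA9 : Nat := (nat_lit 227884678143431733734589854275132163612124633772113967908520486384973691120605496090452282441486163253676654491821155552650544450535510393630283699226134648695935231068234274091232327574998243245196022715275758604711937956866159419833870707831836632522302558238080152005717836996898939757064839876511039760152073314631786719677796960960512)
/-- `2 ^ 23` in nine digits -/
def OB9 : Nat := (nat_lit 1508014301265110212210531135789433919266994718667367336020026974578874556661021701638397830289440286365011937622613858529813495281685576578527111272216857456289377558898457673428494346177851957157063076182038570385653064387358028007502182025427401781533173968728968524513796025488090795391539564403773252374009741312)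
/-- `2 ^ 1152 - 2 ^ 103` -/
def CM : Nat := (nat_lit 61172327492847069472032393719205726809135813743440799050195397570919697796091958321786863938157971792315844506873509046544459008355036150650333616890210625686064472971480622053109783197015954399612052812141827922088117778074833698589048132156300022844899841969874763871624802603515651998113045708569927237462546233158693338462852283197443421503488)

/-- `y` above the digit `x` -/
def hx (x y : Nat) : Nat := Nat.add x (Nat.shiftLeft y (nat_lit 128))
/-- nine fields as digits -/
def pku (x : Ut) : Nat := hx x.a (hx x.b (hx x.c (hx x.d (hx x.e (hx x.f (hx x.g (hx x.h x.i)))))))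
/-- offsets -/
def C0 (l : Nat) : Nat := Nat.add CA9 (Nat.mul l OB9)
/-- `2 ^ 32` times the larger form, with the offset -/
def fI (l : Nat) (u : Ut) : Nat := Nat.add (Nat.shiftLeft (pku u) (nat_lit 32)) (C0 l)
/-- `l` times the smaller form -/
def fE (l : Nat) (u : Ut) : Nat := Nat.mul l (pku u)

def adM (n : Nat) : Nat := Nat.add CM n
def sbM (n : Nat) : Nat := Nat.sub CM n
/-- `-2 ^ 103 + m`, `-2 ^ 103 - m` modulo `2 ^ 1152` -/
def cP (m : Z) : Nat := Z.rec (motive := fun _ => Nat) adM sbM m
def cN (m : Z) : Nat := Z.rec (motive := fun _ => Nat) sbM adM m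
def aZ (m : Z) : Nat := Z.rec (motive := fun _ => Nat) (fun n => n) (fun n => n) m

/-- the test of a control: `c0`, `c2`: constants of the entries `00` and `11`, of the entry `22` -/
def lfW (c0 c2 x : Nat) : Bool :=
  psd1 (Nat.add (dgt x (nat_lit 0)) c0) (Nat.add (dgt x (nat_lit 128)) c0)
    (Nat.add (dgt x (nat_lit 256)) c2) (Nat.add (dgt x (nat_lit 384)) CM)
    (Nat.add (dgt x (nat_lit 512)) CM) (Nat.add (dgt x (nat_lit 640)) CM)
    (Nat.add (dgt x (nat_lit 768)) CM) (Nat.add (dgt x (nat_lit 896)) CM)
    (Nat.add (dgt x (nat_lit 1024)) CM)

/-- the controls of `2 ^ 32 K_i - l K_e` -/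
def cW (Ki Ke : Kf) (l : Nat) : Tr (Tr (Tr Nat)) :=
  Tl3.cn (Tl3.sb (kNd (fI l) Ki) (kNd (fE l) Ke))

/-- THE TEST OF AN INCLUSION: `Ki` the larger form, `l` in units of `2 ^ (-32)`, `m` in units of
`2 ^ (-58)` -/
def inK (Ki Ke : Kf) (l : Nat) (m : Z) : Bool :=
  andB (Nat.ble l (nat_lit 1152921504606846976)) (andB (Nat.ble (aZ m) (nat_lit 1606938044258990275541962092341162602522202993782792835301376))
    (Tl3.al (lfW (cN m) (cP m)) (cW Ki Ke l)))

end Pool.Agent.Helper38.FI
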